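import Pool.Agent.Run7.h500.RD.Stm

/-! Project RD, piece LINE. -/

set_option autoImplicit false
open MeasureTheory Filter Topology Set
open Pool.Agent.Run7.h500.RD

namespace Run7.h519.RD

lemma norm_ge {c : ℂ} (hc : 0 < c.im) (x t : ℝ) (ht : 0 ≤ t) :
    c.im + t ≤ ‖c - (x : ℂ) + t * Complex.I‖ := by
  have h := Complex.abs_im_le_norm (c - (x : ℂ) + t * Complex.I)
  have h2 : (c - (x : ℂ) + t * Complex.I).im = c.im + t := by simp
  rw [h2, abs_of_nonneg (by linarith)] at h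
  exact h

lemma ne_zero' {c : ℂ} (hc : 0 < c.im) (x t : ℝ) (ht : 0 ≤ t) :
    c - (x : ℂ) + t * Complex.I ≠ 0 := by
  intro h
  have := norm_ge hc x t ht
  rw [h, norm_zero] at this
  linarith

lemma int_t {σ : ℝ} (hσ : 0 < σ) (p : ℕ) (hp : 1 ≤ p) :
    IntegrableOn (fun t : ℝ => ((σ + t) ^ (p + 1))⁻¹) (Ioi 0) := by
  have h := integrableOn_add_rpow_Ioi_of_lt (a := -((p:ℝ) + 1)) (c := 0) (m := σ) (by
    have : (1:ℝ) ≤ p := by exact_mod_cast hp
    linarith) (by linarith)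
  refine h.congr_fun ?_ measurableSet_Ioi
  intro t ht
  have ht0 : (0:ℝ) < t := ht
  show (t + σ) ^ (-((p:ℝ) + 1)) = ((σ + t) ^ (p + 1))⁻¹
  rw [Real.rpow_neg (by linarith), add_comm t σ]
  congr 1
  rw [← Real.rpow_natCast]
  push_cast
  rfl

lemma bound {c : ℂ} (hc : 0 < c.im) (p : ℕ) (x t : ℝ) (ht : 0 < t) :
    ‖((c - (x : ℂ) + t * Complex.I) ^ (p + 1))⁻¹‖ ≤ ((c.im + t) ^ (p + 1))⁻¹ := by
  rw [norm_inv, norm_pow]
  have := norm_ge hc x t ht.le
  gcongr

lemma inner_int {c : ℂ} (hc : 0 < c.im) (p : ℕ) (hp : 1 ≤ p) (x : ℝ) :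
    ∫ t in Ioi (0:ℝ), ((c - (x : ℂ) + t * Complex.I) ^ (p + 1))⁻¹
      = ((p:ℂ) * Complex.I)⁻¹ * ((c - (x : ℂ)) ^ p)⁻¹ := by
  have hpI : (p:ℂ) * Complex.I ≠ 0 :=
    mul_ne_zero (by exact_mod_cast (by omega : p ≠ 0)) Complex.I_ne_zero
  have hint : IntegrableOn (fun t : ℝ => ((c - (x : ℂ) + t * Complex.I) ^ (p + 1))⁻¹) (Ioi 0) := by
    refine (int_t hc p hp).mono' ?_ ?_
    · refine Measurable.aestronglyMeasurable ?_
      fun_prop
    · refine (ae_restrict_mem measurableSet_Ioi).mono fun t ht => ?_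
      exact bound hc p x t ht
  have hd : ∀ t ∈ Ici (0:ℝ), HasDerivAt (fun t : ℝ => ((c - (x : ℂ) + t * Complex.I) ^ p)⁻¹)
      (-((p:ℂ) * Complex.I) * ((c - (x : ℂ) + t * Complex.I) ^ (p + 1))⁻¹) t := by
    intro t ht
    have hne := ne_zero' hc x t ht
    have h1 : HasDerivAt (fun t : ℝ => c - (x : ℂ) + t * Complex.I) Complex.I t := by
      have h0 : HasDerivAt (fun t : ℝ => (t : ℂ)) 1 t := Complex.ofRealCLM.hasDerivAt
      simpa using (h0.mul_const Complex.I).const_add (c - (x : ℂ))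
    have h2 := (h1.pow p).inv (pow_ne_zero _ hne)
    refine h2.congr_deriv ?_
    obtain ⟨q, rfl⟩ : ∃ q, p = q + 1 := ⟨p - 1, by omega⟩
    simp only [Nat.add_sub_cancel, Pi.pow_apply]
    field_simp
    ring
  have ht : Tendsto (fun t : ℝ => ((c - (x : ℂ) + t * Complex.I) ^ p)⁻¹) atTop (𝓝 0) := by
    refine tendsto_inv₀_cobounded.comp ?_
    rw [tendsto_norm_atTop_iff_cobounded.symm]
    refine tendsto_atTop_mono' atTop ?_ (tendsto_pow_atTop (n := p) (by omega) |>.comp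
      (tendsto_atTop_add_const_left atTop c.im tendsto_id))
    filter_upwards [eventually_ge_atTop (0:ℝ)] with t ht
    simp only [Function.comp, id]
    rw [norm_pow]
    have := norm_ge hc x t ht
    gcongr
  have h := integral_Ioi_of_hasDerivAt_of_tendsto' hd (hint.const_mul _) ht
  rw [integral_const_mul] at h
  simp only [Complex.ofReal_zero, zero_mul, add_zero, zero_sub] at h
  have h3 : ((p:ℂ) * Complex.I) * ∫ t in Ioi (0:ℝ), ((c - (x : ℂ) + t * Complex.I) ^ (p + 1))⁻¹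
      = ((c - (x : ℂ)) ^ p)⁻¹ := by
    linear_combination -h
  rw [← h3, ← mul_assoc, inv_mul_cancel₀ hpI, one_mul]

lemma step (g : ℝ → ℝ) (hg : Continuous g) (hi : Integrable g) (p : ℕ) (hp : 1 ≤ p)
    (h : ∀ c : ℂ, 0 < c.im → ∫ x : ℝ, (g x : ℂ) * ((c - (x : ℂ)) ^ (p + 1))⁻¹ = 0)
    (c : ℂ) (hc : 0 < c.im) : ∫ x : ℝ, (g x : ℂ) * ((c - (x : ℂ)) ^ p)⁻¹ = 0 := by
  have hpI : (p:ℂ) * Complex.I ≠ 0 :=
    mul_ne_zero (by exact_mod_cast (by omega : p ≠ 0)) Complex.I_ne_zero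
  have hI : Integrable (Function.uncurry fun (x t : ℝ) =>
      (g x : ℂ) * ((c - (x : ℂ) + t * Complex.I) ^ (p + 1))⁻¹)
      (volume.prod (volume.restrict (Ioi (0:ℝ)))) := by
    refine Integrable.mono' (hi.norm.mul_prod (int_t hc p hp)) ?_ ?_
    · refine Measurable.aestronglyMeasurable ?_
      have hgm := hg.measurable
      simp only [Function.uncurry_def]
      fun_prop
    · have h1 : ∀ᵐ q : ℝ × ℝ ∂(volume.prod (volume.restrict (Ioi (0:ℝ)))), q.2 ∈ Ioi (0:ℝ) :=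
        Measure.quasiMeasurePreserving_snd.ae (ae_restrict_mem measurableSet_Ioi)
      filter_upwards [h1] with q hq
      simp only [Function.uncurry_def, norm_mul, Complex.norm_real]
      exact mul_le_mul_of_nonneg_left (bound hc p q.1 q.2 hq) (norm_nonneg _)
  have hs := integral_integral_swap hI
  have hL : ∀ x : ℝ, ∫ t in Ioi (0:ℝ), (g x : ℂ) * ((c - (x : ℂ) + t * Complex.I) ^ (p + 1))⁻¹
      = ((p:ℂ) * Complex.I)⁻¹ * ((g x : ℂ) * ((c - (x : ℂ)) ^ p)⁻¹) := by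
    intro x
    rw [integral_const_mul, inner_int hc p hp]
    ring
  have hR : ∫ t in Ioi (0:ℝ), ∫ x : ℝ, (g x : ℂ) * ((c - (x : ℂ) + t * Complex.I) ^ (p + 1))⁻¹
      = 0 := by
    have hz : ∀ t ∈ Ioi (0:ℝ), ∫ x : ℝ, (g x : ℂ) * ((c - (x : ℂ) + t * Complex.I) ^ (p + 1))⁻¹
        = (0:ℂ) := by
      intro t ht
      have ht0 : (0:ℝ) < t := ht
      have := h (c + t * Complex.I) (by simp; linarith)
      rw [← this]
      congr 1
      ext x
      rw [show c - (x : ℂ) + t * Complex.I = c + t * Complex.I - (x : ℂ) by ring]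
    rw [setIntegral_congr_fun measurableSet_Ioi hz]
    simp
  simp only [hL] at hs
  rw [hR, integral_const_mul] at hs
  exact (mul_eq_zero.1 hs).resolve_left (inv_ne_zero hpI)

theorem t_LINE : S_LINE := by
  intro g p hg hi hp h
  have h1 : ∀ c : ℂ, 0 < c.im → ∫ x : ℝ, (g x : ℂ) * ((c - (x : ℂ)) ^ 1)⁻¹ = 0 := by
    induction p, hp using Nat.le_induction with
    | base => exact h
    | succ q hq ih => exact ih (step g hg hi q hq h)
  intro b
  have hφ : ∫ x : ℝ, (Real.pi)⁻¹ * (1 + x ^ 2)⁻¹ = 1 := by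
    rw [integral_const_mul, integral_univ_inv_one_add_sq]
    exact inv_mul_cancel₀ Real.pi_ne_zero
  have hlim := tendsto_integral_comp_smul_smul_of_integrable' (μ := volume) (F := ℝ)
    (φ := fun x : ℝ => (Real.pi)⁻¹ * (1 + x ^ 2)⁻¹) (fun x => by positivity) hφ ?_ (x₀ := b) hi
    hg.continuousAt
  · have hz : ∀ᶠ c : ℝ in atTop, ∫ x : ℝ, (c ^ (Module.finrank ℝ ℝ) *
        ((Real.pi)⁻¹ * (1 + (c • (b - x)) ^ 2)⁻¹)) • g x = 0 := by
      filter_upwards [eventually_gt_atTop (0:ℝ)] with c hc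
      have h2 := h1 ((b : ℂ) + ((c⁻¹ : ℝ) : ℂ) * Complex.I) (by simp; positivity)
      have h3 := congrArg Complex.im h2
      rw [Complex.zero_im] at h3
      have h4 : Integrable fun x : ℝ => (g x : ℂ) *
          (((b : ℂ) + ((c⁻¹ : ℝ) : ℂ) * Complex.I - (x : ℂ)) ^ 1)⁻¹ := by
        refine Integrable.mono' (hi.norm.mul_const c) ?_ ?_
        · refine Measurable.aestronglyMeasurable ?_
          have hgm := hg.measurable
          fun_prop
        · refine Filter.Eventually.of_forall fun x => ?_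
          rw [norm_mul, Complex.norm_real, pow_one, norm_inv]
          refine mul_le_mul_of_nonneg_left ?_ (norm_nonneg _)
          have h5 := Complex.abs_im_le_norm ((b : ℂ) + ((c⁻¹ : ℝ) : ℂ) * Complex.I - (x : ℂ))
          have h6 : ((b : ℂ) + ((c⁻¹ : ℝ) : ℂ) * Complex.I - (x : ℂ)).im = c⁻¹ := by simp
          rw [h6, abs_of_pos (by positivity)] at h5
          calc _ ≤ (c⁻¹)⁻¹ := inv_anti₀ (by positivity) h5
            _ = c := inv_inv c
      have h7 : ∀ x : ℝ, (c ^ (Module.finrank ℝ ℝ) *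
          ((Real.pi)⁻¹ * (1 + (c • (b - x)) ^ 2)⁻¹)) • g x = (-(Real.pi)⁻¹) *
          (Complex.imCLM ((g x : ℂ) *
          (((b : ℂ) + ((c⁻¹ : ℝ) : ℂ) * Complex.I - (x : ℂ)) ^ 1)⁻¹)) := by
        intro x
        have hcne : c ≠ 0 := hc.ne'
        have h8 : (((b : ℂ) + ((c⁻¹ : ℝ) : ℂ) * Complex.I - (x : ℂ))⁻¹).im
            = -(c * (1 + (c * (b - x)) ^ 2)⁻¹) := by
          rw [Complex.inv_im]
          have h9 : Complex.normSq ((b : ℂ) + ((c⁻¹ : ℝ) : ℂ) * Complex.I - (x : ℂ))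
              = (b - x) ^ 2 + (c⁻¹) ^ 2 := by
            rw [Complex.normSq_apply]
            simp
            ring
          rw [h9]
          have h10 : ((b : ℂ) + ((c⁻¹ : ℝ) : ℂ) * Complex.I - (x : ℂ)).im = c⁻¹ := by simp
          rw [h10]
          have h11 : (b - x) ^ 2 + (c⁻¹) ^ 2 ≠ 0 := by positivity
          have h12 : 1 + (c * (b - x)) ^ 2 ≠ 0 := by positivity
          field_simp
          ring
        simp only [Module.finrank_self, pow_one, smul_eq_mul, Complex.imCLM_apply,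
          Complex.im_ofReal_mul, h8]
        ring
      simp only [h7]
      rw [integral_const_mul, Complex.imCLM.integral_comp_comm h4, Complex.imCLM_apply, h3, mul_zero]
    exact tendsto_nhds_unique hlim (tendsto_const_nhds.congr' (hz.mono fun c hc => hc.symm))
  · have hb : ∀ x : ℝ, ‖x‖ ^ (Module.finrank ℝ ℝ) * ((Real.pi)⁻¹ * (1 + x ^ 2)⁻¹)
        ≤ (Real.pi)⁻¹ * ‖x‖⁻¹ := by
      intro x
      rw [Module.finrank_self, pow_one]
      rcases eq_or_ne x 0 with h0 | h0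
      · subst h0; simp
      · have hx : 0 < ‖x‖ := norm_pos_iff.2 h0
        have h2 : x ^ 2 = ‖x‖ ^ 2 := by rw [Real.norm_eq_abs, sq_abs]
        rw [h2]
        have h3 : ‖x‖ * (1 + ‖x‖ ^ 2)⁻¹ ≤ ‖x‖⁻¹ := by
          rw [← div_eq_mul_inv, inv_eq_one_div, div_le_div_iff₀ (by positivity) hx]
          nlinarith
        calc ‖x‖ * ((Real.pi)⁻¹ * (1 + ‖x‖ ^ 2)⁻¹)
            = (Real.pi)⁻¹ * (‖x‖ * (1 + ‖x‖ ^ 2)⁻¹) := by ring
          _ ≤ _ := mul_le_mul_of_nonneg_left h3 (by positivity)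
    have ht : Tendsto (fun x : ℝ => (Real.pi)⁻¹ * ‖x‖⁻¹) (Bornology.cobounded ℝ) (𝓝 0) := by
      have := (tendsto_inv_atTop_zero.comp (tendsto_norm_cobounded_atTop (E := ℝ))).const_mul
        ((Real.pi)⁻¹)
      simpa using this
    refine squeeze_zero (fun x => by positivity) hb ht

end Run7.h519.RD

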